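import Pool.Agent.E8helper17.SOAFail

/-!
# `Σ¹₁-AC₀` (and so `finite-Σ¹₁-AC₀`) does not imply `ABW₀` over `RCA₀`

The first-order part of the model is an ultrapower `*ℕ` of `ℕ`, and its sets are the internal sets in
`*C_k` for a standard `k`, where `C_0 ⊆ C_1 ⊆ ...` is a strict hierarchy of countable families of sets of
natural numbers such that an arithmetic formula with parameters from `C_k` defines a set in `C_l` for an
`l` that depends on `k` and the formula only. Saturation of the ultrapower gives `Σ¹₁-AC`. The instance
of `ABW` that fails says that `X` codes the first `i` levels of the hierarchy for some `i`: its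
solutions in the model are the codes with standard `i`.
-/

set_option autoImplicit false

namespace Pool.Agent.Results.MP_3f22c5_lc.FiniteChoiceNotABWH17

open Pool.Agent.E8helper17.SOA

/-- **Positive answer to Q1.** Some model of `RCA₀` satisfies `Σ¹₁-AC` and `finite-Σ¹₁-AC` and fails
the scheme `ABW`. -/
theorem result : ∃ 𝔐 : Model, 𝔐.IsRCA0 ∧ 𝔐.SigmaAC ∧ 𝔐.FiniteSigmaAC ∧ ¬ 𝔐.ABW :=
  ⟨MM, isRCA0, sigmaAC, finiteSigmaAC, not_ABW⟩

end Pool.Agent.Results.MP_3f22c5_lc.FiniteChoiceNotABWH17
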